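import Pool.Agent.H30.M3.Reg
import Pool.Agent.H43.K4.Kron

/-!
# Family I, region F4: `a ≥ 1`, `a b₁ ≥ 1`

Variables of the polynomials: `0 = U`, `1 = W`, `2 = k` (`a b₁ = 1 + k`), `3 = b₀`, `4 = a - 1`, `5 = p₄ / b₁`.
-/

namespace Pool.Agent.H23.K4

open Pool.Agent.H30.M3
open Pool.Agent.H43.K4

private def eU : Ex := .v 0
private def eW : Ex := .v 1
private def ek : Ex := .v 2
private def eg : Ex := .v 3
private def ea : Ex := .n 1 + .v 4
private def eR : Ex := .v 5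
private def ed : Ex := .n 1 + ek
private def eYn : Ex := eU * ed + ea * (eW + eg)
private def eY1 : Ex := eYn + ed
private def eZn : Ex := ea * eg + (eW + eR) * ed
private def eZd : Ex := eZn + ed
private def egn : Ex := eU * eZd + ea * ea * eZn
private def ePh : Ex := ea * eg * eY1 * eZd + ea * eYn * ed * eZd + ea * ea * eZn * eY1
private def eEn : Ex := (eg + eU) * ePh + egn * ed * eY1
private def eL : Ex := egn * eYn * (eEn * eEn)
private def eRt : Ex := eU * eZn * ePh * ((eg * eY1 + ea * eYn) * ePh + ea * eY1 * eEn) + eU ^ 4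

private theorem chkF4 : chk 30 [7, 7, 9, 11, 13, 4] eL eRt = true := by decide +kernel

/-- the polynomial inequality -/
private theorem polyF4 {U W k g al R : ℝ} (hU : 0 < U) (hW : 0 ≤ W) (hk : 0 ≤ k) (hg : 0 ≤ g) (hal : 0 ≤ al) (hR : 0 ≤ R)
    {d a Yn Y1 Zn Zd gn Ph En : ℝ} (hd : d = 1 + k) (ha : a = 1 + al) (hYn : Yn = U * d + a * (W + g)) (hY1 : Y1 = Yn + d)
    (hZn : Zn = a * g + (W + R) * d) (hZd : Zd = Zn + d) (hgn : gn = U * Zd + a * a * Zn)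
    (hPh : Ph = a * g * Y1 * Zd + a * Yn * d * Zd + a * a * Zn * Y1) (hEn : En = (g + U) * Ph + gn * d * Y1) :
    U * Zn * Ph * ((g * Y1 + a * Yn) * Ph + a * Y1 * En) < gn * Yn * (En * En) := by
  obtain ⟨x, hx⟩ : ∃ x : ℕ → ℝ, x = fun i => match i with
    | 0 => U
    | 1 => W
    | 2 => k
    | 3 => g
    | 4 => al
    | 5 => R
    | _ => 0 := ⟨_, rfl⟩
  have h := le_of_chk chkF4 x (by
      intro i
      rw [hx]
      match i with
      | 0 => exact hU.le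
      | 1 => exact hW
      | 2 => exact hk
      | 3 => exact hg
      | 4 => exact hal
      | 5 => exact hR
      | _ + 6 => exact le_rfl)
  have f1 : (Ex.n 1).ev x = 1 := by simp
  have fU : eU.ev x = U := by rw [hx]; rfl
  have fW : eW.ev x = W := by rw [hx]; rfl
  have fk : ek.ev x = k := by rw [hx]; rfl
  have fg : eg.ev x = g := by rw [hx]; rfl
  have fR : eR.ev x = R := by rw [hx]; rfl
  have f4 : (Ex.v 4).ev x = al := by rw [hx]; rfl
  have fa : ea.ev x = a := by rw [show ea.ev x = (Ex.n 1).ev x + (Ex.v 4).ev x from rfl, f1, f4, ha]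
  have fd : ed.ev x = d := by rw [show ed.ev x = (Ex.n 1).ev x + ek.ev x from rfl, f1, fk, hd]
  have fYn : eYn.ev x = Yn := by
    rw [show eYn.ev x = eU.ev x * ed.ev x + ea.ev x * (eW.ev x + eg.ev x) from rfl, fU, fd, fa, fW, fg, hYn]
  have fY1 : eY1.ev x = Y1 := by rw [show eY1.ev x = eYn.ev x + ed.ev x from rfl, fYn, fd, hY1]
  have fZn : eZn.ev x = Zn := by
    rw [show eZn.ev x = ea.ev x * eg.ev x + (eW.ev x + eR.ev x) * ed.ev x from rfl, fa, fg, fW, fR, fd, hZn]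
  have fZd : eZd.ev x = Zd := by rw [show eZd.ev x = eZn.ev x + ed.ev x from rfl, fZn, fd, hZd]
  have fgn : egn.ev x = gn := by
    rw [show egn.ev x = eU.ev x * eZd.ev x + ea.ev x * ea.ev x * eZn.ev x from rfl, fU, fZd, fa, fZn, hgn]
  have fPh : ePh.ev x = Ph := by
    rw [show ePh.ev x = ea.ev x * eg.ev x * eY1.ev x * eZd.ev x + ea.ev x * eYn.ev x * ed.ev x * eZd.ev x +
      ea.ev x * ea.ev x * eZn.ev x * eY1.ev x from rfl, fa, fg, fY1, fZd, fYn, fd, fZn, hPh]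
  have fEn : eEn.ev x = En := by
    rw [show eEn.ev x = (eg.ev x + eU.ev x) * ePh.ev x + egn.ev x * ed.ev x * eY1.ev x from rfl, fg, fU, fPh, fgn, fd, fY1, hEn]
  have fL : eL.ev x = gn * Yn * (En * En) := by
    rw [show eL.ev x = egn.ev x * eYn.ev x * (eEn.ev x * eEn.ev x) from rfl, fgn, fYn, fEn]
  have fRt : eRt.ev x = U * Zn * Ph * ((g * Y1 + a * Yn) * Ph + a * Y1 * En) + U ^ 4 := by
    rw [show eRt.ev x = eU.ev x * eZn.ev x * ePh.ev x * ((eg.ev x * eY1.ev x + ea.ev x * eYn.ev x) * ePh.ev x +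
      ea.ev x * eY1.ev x * eEn.ev x) + eU.ev x ^ 4 from rfl, fU, fZn, fPh, fg, fY1, fa, fYn, fEn]
  rw [fL, fRt] at h
  have h4 : 0 < U ^ 4 := by positivity
  exact (lt_add_of_pos_right _ h4).trans_le h

theorem regF4 : RegF4 := by
  intro a0 a b0 b1 p q ha0 ha hb0 hb01 hb1 hab h
  have e2 := h.e2 1
  have e3 := h.e3 0
  have e31 := h.e3 1
  have e32 := h.e3 2
  rw [show 1 + 1 = 2 from rfl] at e2
  rw [show 0 + 1 = 1 from rfl, show 0 + 2 = 2 from rfl] at e3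
  rw [show 1 + 1 = 2 from rfl, show 1 + 2 = 3 from rfl] at e31
  rw [show 2 + 1 = 3 from rfl, show 2 + 2 = 4 from rfl] at e32
  have pv := h.pp 1
  have pU := h.pp 2
  have pW := h.pp 3
  have pR := h.pp 4
  have pz2 := h.qp 0
  have py := h.qp 1
  have pz := h.qp 2
  obtain ⟨U, hU⟩ : ∃ U, U = p 2 := ⟨_, rfl⟩
  obtain ⟨W, hW⟩ : ∃ W, W = p 3 := ⟨_, rfl⟩
  obtain ⟨P4, hP4⟩ : ∃ P4, P4 = p 4 := ⟨_, rfl⟩
  obtain ⟨v, hv⟩ : ∃ v, v = p 1 := ⟨_, rfl⟩
  obtain ⟨q0, hq0⟩ : ∃ q0, q0 = q 0 := ⟨_, rfl⟩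
  obtain ⟨y, hy⟩ : ∃ y, y = q 1 := ⟨_, rfl⟩
  obtain ⟨z, hz⟩ : ∃ z, z = q 2 := ⟨_, rfl⟩
  rw [← hU, ← hv, ← hq0, ← hy, ← hz]
  rw [← hU, ← hv, ← hy, ← hz] at e2
  rw [← hU, ← hv, ← hq0] at e3
  rw [← hU, ← hW, ← hy] at e31
  rw [← hW, ← hP4, ← hz] at e32
  rw [← hv] at pv
  rw [← hU] at pU
  rw [← hW] at pW
  rw [← hP4] at pR
  rw [← hq0] at pz2
  rw [← hy] at py
  rw [← hz] at pz
  clear h hU hW hP4 hv hq0 hy hz
  have ha' : 0 < a := by linarith
  obtain ⟨d, hd⟩ : ∃ d, d = a * b1 := ⟨_, rfl⟩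
  have hd1 : 1 ≤ d := by rw [hd]; exact hab
  obtain ⟨R, hR⟩ : ∃ R, R = P4 / b1 := ⟨_, rfl⟩
  have hRd : R * d = a * P4 := by
    rw [hR, hd]
    field_simp
  have hR0 : 0 < R := by rw [hR]; positivity
  obtain ⟨Yn, hYn⟩ : ∃ Yn, Yn = U * d + a * (W + b0) := ⟨_, rfl⟩
  obtain ⟨Y1, hY1⟩ : ∃ Y1, Y1 = Yn + d := ⟨_, rfl⟩
  obtain ⟨Zn, hZn⟩ : ∃ Zn, Zn = a * b0 + (W + R) * d := ⟨_, rfl⟩
  obtain ⟨Zd, hZd⟩ : ∃ Zd, Zd = Zn + d := ⟨_, rfl⟩
  obtain ⟨gn, hgn⟩ : ∃ gn, gn = U * Zd + a * a * Zn := ⟨_, rfl⟩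
  obtain ⟨Ph, hPh⟩ : ∃ Ph, Ph = a * b0 * Y1 * Zd + a * Yn * d * Zd + a * a * Zn * Y1 := ⟨_, rfl⟩
  obtain ⟨En, hEn⟩ : ∃ En, En = (b0 + U) * Ph + gn * d * Y1 := ⟨_, rfl⟩
  have key := polyF4 (U := U) (W := W) (k := d - 1) (g := b0) (al := a - 1) (R := R) pU pW.le (by linarith) hb0
    (by linarith) hR0.le (d := d) (a := a) (by ring) (by ring) hYn hY1 hZn hZd hgn hPh hEn
  have hd0 : 0 < d := by linarith
  have Yn0 : 0 < Yn := by rw [hYn]; positivity
  have Y10 : 0 < Y1 := by rw [hY1]; positivity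
  have Zn0 : 0 < Zn := by rw [hZn]; positivity
  have Zd0 : 0 < Zd := by rw [hZd]; positivity
  have fy : y * Y1 = a * Yn := by
    rw [hY1, hYn, hd]
    linear_combination a * e31
  have fz : z * Zd = a * Zn := by
    have e : Zn = a * b0 + W * d + a * P4 := by rw [hZn, ← hRd]; ring
    rw [hZd, e, hd]
    linear_combination a * e32
  obtain ⟨F, hF⟩ : ∃ F, F = b0 + b1 * y + z := ⟨_, rfl⟩
  have F0 : 0 < F := by rw [hF]; positivity
  have fPh : Ph = a * F * Y1 * Zd := by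
    rw [hPh, hF]
    have e1 : a * Yn * d * Zd = y * Y1 * (a * b1) * Zd := by rw [fy, hd]
    have e2 : a * a * Zn * Y1 = a * (z * Zd) * Y1 := by rw [fz]; ring
    rw [e1, e2]
    ring
  have Ph0 : 0 < Ph := by rw [fPh]; positivity
  have fgn : gn = (U + a * z) * Zd := by
    rw [hgn]
    have e2 : a * a * Zn = a * (z * Zd) := by rw [fz]; ring
    rw [e2]
    ring
  obtain ⟨Em, hEm⟩ : ∃ Em, Em = b0 + U + b1 * (U + a * z) / F := ⟨_, rfl⟩
  have Em0 : 0 < Em := by rw [hEm]; positivity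
  have fEn : En = Em * Ph := by
    rw [hEn, hEm, fgn, fPh, hd]
    field_simp
  have I1 : U * z * (b0 + y + a * Em) < (U + a * z) * y * Em ^ 2 := by
    have c0 : 0 < Zd * Y1 * Ph ^ 2 := by positivity
    refine lt_of_mul_lt_mul_right ?_ c0.le
    have e1 : U * z * (b0 + y + a * Em) * (Zd * Y1 * Ph ^ 2) =
        a * (U * Zn * Ph * ((b0 * Y1 + a * Yn) * Ph + a * Y1 * En)) := by
      calc U * z * (b0 + y + a * Em) * (Zd * Y1 * Ph ^ 2) =
          U * (z * Zd) * Ph * ((b0 * Y1 + (y * Y1)) * Ph + a * Y1 * (Em * Ph)) := by ring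
        _ = _ := by rw [fz, fy, ← fEn]; ring
    have e2 : (U + a * z) * y * Em ^ 2 * (Zd * Y1 * Ph ^ 2) = a * (gn * Yn * (En * En)) := by
      calc (U + a * z) * y * Em ^ 2 * (Zd * Y1 * Ph ^ 2) =
          ((U + a * z) * Zd) * (y * Y1) * ((Em * Ph) * (Em * Ph)) := by ring
        _ = _ := by rw [← fgn, fy, ← fEn]; ring
    rw [e1, e2]
    exact mul_lt_mul_of_pos_left key ha'
  obtain ⟨E, hE⟩ : ∃ E, E = b0 + b1 * v + U := ⟨_, rfl⟩
  have hEE : Em ≤ E := by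
    have e4 : (U + a * z) / F ≤ v := by
      rw [div_le_iff₀ F0, hF]
      linarith
    have e5 := mul_le_mul_of_nonneg_left e4 hb1.le
    rw [hEm, hE, mul_div_assoc]
    linarith
  have A0 : 0 < (U + a * z) * y := by positivity
  have I2 : U * z * (b0 + y + a * E) < (U + a * z) * y * E ^ 2 := by
    obtain ⟨A, hA⟩ : ∃ A, A = (U + a * z) * y := ⟨_, rfl⟩
    obtain ⟨B, hB⟩ : ∃ B, B = U * z * a := ⟨_, rfl⟩
    obtain ⟨C, hC⟩ : ∃ C, C = U * z * (b0 + y) := ⟨_, rfl⟩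
    have C0 : 0 < C := by rw [hC]; positivity
    have e1 : U * z * (b0 + y + a * Em) = B * Em + C := by rw [hB, hC]; ring
    have e2 : U * z * (b0 + y + a * E) = B * E + C := by rw [hB, hC]; ring
    rw [← hA] at A0
    rw [e1, ← hA] at I1
    rw [e2, ← hA]
    have e3 : B < A * Em := by
      have : B * Em < (A * Em) * Em := by nlinarith
      exact lt_of_mul_lt_mul_right this Em0.le
    have e4 : 0 ≤ (E - Em) * (A * (E + Em) - B) := by
      refine mul_nonneg (by linarith) ?_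
      have : 0 ≤ A * E := by
        have : 0 < E := Em0.trans_le hEE
        positivity
      linarith
    linarith
  have fq : b1 * q0 < a * E := by
    have : 0 < q0 * E := mul_pos pz2 (Em0.trans_le hEE)
    rw [← hE] at e3
    linarith
  have E0 : 0 < E := Em0.trans_le hEE
  rw [← hE]
  calc U * z * (b0 + b1 * q0 + y) ≤ U * z * (b0 + y + a * E) :=
        mul_le_mul_of_nonneg_left (by linarith) (by positivity)
    _ < (U + a * z) * y * E ^ 2 := I2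
    _ ≤ (a0 + U + a * z) * y * E ^ 2 := by
        have : 0 ≤ a0 * y * E ^ 2 := by positivity
        linarith

end Pool.Agent.H23.K4
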