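import Pool.Agent.H23.K4.Low
import Pool.Agent.H4.RD4.Mod5B

/-!
# The cases (20, 18), (20, 26), (28, 18), (28, 26) of order four

Along the backward orbits of a fixed solution two consecutive terms are not both small (`Low`).
-/

namespace Pool.Agent.H23.K4

open Filter Topology
open Pool.Agent.H50.Rdb
open Pool.Agent.H4.RD4 (prod_B)
open Pool.Agent.H81.RDE (ESB caseOf IsSolution)

variable {a b : ℕ → ℝ} {l : Ultrafilter ℕ} {X : ℕ → ℕ → ℝ} {r v : ℕ → ℝ}

theorem FC.na {a b : ℕ → ℝ} (hc : FC a b) : ∀ i < 5, 0 ≤ a i := by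
  intro i hi
  have : i = 0 ∨ i = 1 ∨ i = 2 ∨ i = 3 ∨ i = 4 := by omega
  rcases this with rfl | rfl | rfl | rfl | rfl
  · exact hc.a0.ge
  · exact hc.a1.ge
  · exact hc.a2.le
  · exact hc.a3
  · exact hc.a4.le

theorem FC.nb {a b : ℕ → ℝ} (hc : FC a b) : ∀ i < 5, 0 ≤ b i := by
  intro i hi
  have : i = 0 ∨ i = 1 ∨ i = 2 ∨ i = 3 ∨ i = 4 := by omega
  rcases this with rfl | rfl | rfl | rfl | rfl
  · exact hc.b0.ge
  · exact hc.b1.le
  · exact hc.b2.ge
  · exact hc.b3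
  · exact hc.b4.le

/-- a null term is followed by a term bounded below -/
theorem low_next {c : ℝ} (hc : 0 < c) (h : ∀ j, ∀ᶠ i in (l : Filter ℕ), c ≤ X i j ∨ c ≤ X i (j + 1)) {j : ℕ}
    (hj : Tendsto (fun i => X i j) l (𝓝 0)) : ∀ᶠ i in (l : Filter ℕ), c ≤ X i (j + 1) := by
  filter_upwards [h j, hj.eventually (gt_mem_nhds hc)] with i h1 h2
  rcases h1 with h1 | h1
  · exact absurd h2 (not_lt.2 h1)
  · exact h1

/-- a null term is preceded by a term bounded below -/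
theorem low_prev {c : ℝ} (hc : 0 < c) (h : ∀ j, ∀ᶠ i in (l : Filter ℕ), c ≤ X i j ∨ c ≤ X i (j + 1)) {j : ℕ}
    (hj : Tendsto (fun i => X i (j + 1)) l (𝓝 0)) : ∀ᶠ i in (l : Filter ℕ), c ≤ X i j := by
  filter_upwards [h j, hj.eventually (gt_mem_nhds hc)] with i h1 h2
  rcases h1 with h1 | h1
  · exact h1
  · exact absurd h2 (not_lt.2 h1)

/-- two consecutive null terms are impossible -/
theorem low_false {c : ℝ} (hc : 0 < c) (h : ∀ j, ∀ᶠ i in (l : Filter ℕ), c ≤ X i j ∨ c ≤ X i (j + 1)) {j : ℕ}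
    (hj : Tendsto (fun i => X i j) l (𝓝 0)) (hj1 : Tendsto (fun i => X i (j + 1)) l (𝓝 0)) : False := by
  obtain ⟨i, h1, h2⟩ := ((low_next hc h hj).and (hj1.eventually (gt_mem_nhds hc))).exists
  exact absurd h2 (not_lt.2 h1)

/-- `b₃ > 0`: (20, 26), (28, 26) -/
theorem noBack_26 (hc : FC a b) (hb3 : 0 < b 3) (hX : Back a b l X) (hl : Low l X) : False := by
  obtain ⟨r, v, h⟩ := exists_lims hX hc.na hc.nb
  obtain ⟨c, hc0, hlow⟩ := hl
  have hz : ∀ j m, 0 < r j → 1 ≤ m → m ≤ 4 → 0 < b m → Bd l X (j + m) := fun j m hj h1 h4 hb =>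
    h.bd_add (m := m) h1 h4 hb hj
  have r0 : 0 < r 0 := by rw [h.r_zero]; norm_num
  have hb1 := hc.b1
  have hb4 := hc.b4
  have key : ∀ j, 0 < r j → r (j + 2) = 0 → False := by
    intro j hj h2
    have z1 := hz j 1 hj (by norm_num) (by norm_num) hb1
    have z3 := hz j 3 hj (by norm_num) (by norm_num) hb3
    have z4 := hz j 4 hj (by norm_num) (by norm_num) hb4
    have e := h.eq1 j (Or.inr z1) (Or.inl hc.b2) (Or.inr z3) (Or.inr z4)
    rw [hc.b0, hc.b2, hc.a1, h2, h.r_eq_zero z3, h.r_eq_zero z4] at e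
    have e1 : r j * (b 1 * v (j + 1) + b 3 * v (j + 3) + b 4 * v (j + 4)) = 0 := by linarith
    have e2 := (mul_eq_zero.1 e1).resolve_left hj.ne'
    have q1 := mul_nonneg hb1.le (h.v_nonneg z1)
    have q3 := mul_nonneg hb3.le (h.v_nonneg z3)
    have q4 := mul_nonneg hb4.le (h.v_nonneg z4)
    have e3 : b 3 * v (j + 3) = 0 := by linarith
    have e4 : b 4 * v (j + 4) = 0 := by linarith
    have t3 := h.hv _ z3
    have t4 := h.hv _ z4
    rw [(mul_eq_zero.1 e3).resolve_left hb3.ne'] at t3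
    rw [(mul_eq_zero.1 e4).resolve_left hb4.ne'] at t4
    exact low_false hc0 hlow t3 t4
  by_cases h2 : 0 < r 2
  · refine key 2 h2 (h.r_eq_zero ?_)
    exact hz 0 4 r0 (by norm_num) (by norm_num) hb4
  · exact key 0 r0 (le_antisymm (not_lt.1 h2) (h.r_nonneg 2))

/-- (20, 18) -/
theorem noBack_20_18 (hc : FC a b) (ha3 : a 3 = 0) (hb3 : b 3 = 0) (hX : Back a b l X) (hl : Low l X) : False := by
  obtain ⟨r, v, h⟩ := exists_lims hX hc.na hc.nb
  obtain ⟨c, hc0, hlow⟩ := hl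
  have hz1 : ∀ j, 0 < r j → Bd l X (j + 1) := fun j hj => h.bd_add (m := 1) (by norm_num) (by norm_num) hc.b1 hj
  have hz4 : ∀ j, 0 < r j → Bd l X (j + 4) := fun j hj => h.bd_add (m := 4) (by norm_num) (by norm_num) hc.b4 hj
  have r0 : 0 < r 0 := by rw [h.r_zero]; norm_num
  have hb1 := hc.b1
  have hb4 := hc.b4
  have ha2 := hc.a2
  have ha4 := hc.a4
  -- the equations
  have E : ∀ j, ∀ᶠ i in (l : Filter ℕ), X i j * (b 1 * X i (j + 1) + b 4 * X i (j + 4)) =
      a 2 * X i (j + 2) + a 4 * X i (j + 4) := by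
    intro j
    filter_upwards [h.back.step j] with i hi
    unfold lin at hi
    rw [hc.a0, hc.a1, ha3, hc.b0, hc.b2, hb3] at hi
    linarith
  -- the terms which tend to zero
  have key : ∀ j, 0 < r j → a 2 * r (j + 2) + a 4 * r (j + 4) = 0 → Tendsto (fun i => X i (j + 1)) l (𝓝 0) ∧
      Tendsto (fun i => X i (j + 4)) l (𝓝 0) := by
    intro j hj h2
    have z1 := hz1 j hj
    have z4 := hz4 j hj
    have e := h.eq1 j (Or.inr z1) (Or.inl hc.b2) (Or.inl hb3) (Or.inr z4)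
    rw [hc.b0, hc.b2, hb3, hc.a1, ha3] at e
    have e1 : r j * (b 1 * v (j + 1) + b 4 * v (j + 4)) = 0 := by linarith
    have e2 := (mul_eq_zero.1 e1).resolve_left hj.ne'
    have q1 := mul_nonneg hb1.le (h.v_nonneg z1)
    have q4 := mul_nonneg hb4.le (h.v_nonneg z4)
    have e3 : b 1 * v (j + 1) = 0 := by linarith
    have e4 : b 4 * v (j + 4) = 0 := by linarith
    have t1 := h.hv _ z1
    have t4 := h.hv _ z4
    rw [(mul_eq_zero.1 e3).resolve_left hb1.ne'] at t1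
    rw [(mul_eq_zero.1 e4).resolve_left hb4.ne'] at t4
    exact ⟨t1, t4⟩
  have z4 := hz4 0 r0
  by_cases h2 : 0 < r 2
  · obtain ⟨t3, t6⟩ := key 2 h2 (by
      rw [show 2 + 2 = 0 + 4 from rfl, h.r_eq_zero z4]
      have z6 := hz4 2 h2
      rw [h.r_eq_zero z6]
      ring)
    have l5 := low_prev hc0 hlow (j := 5) t6
    obtain ⟨K, hK⟩ := z4
    have t : Tendsto (fun i => b 1 * X i (2 + 1) * K) l (𝓝 (b 1 * 0 * K)) := (t3.const_mul _).mul_const _
    rw [mul_zero, zero_mul] at t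
    obtain ⟨i, e, s1, s2, s3, s4⟩ := ((E 3).and ((t3.eventually (gt_mem_nhds (div_pos ha4 hb4))).and
      (l5.and (hK.and (t.eventually (gt_mem_nhds (mul_pos ha2 hc0))))))).exists
    have p3 := h.back.pos i 3
    have p4 := h.back.pos i 4
    have p7 := h.back.pos i 7
    have e' : X i 3 * (b 1 * X i 4 + b 4 * X i 7) = a 2 * X i 5 + a 4 * X i 7 := e
    have s1' : X i 3 < a 4 / b 4 := s1
    have s3' : X i 4 ≤ K := s3
    have s4' : b 1 * X i 3 * K < a 2 * c := s4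
    rw [lt_div_iff₀ hb4] at s1'
    have q1 := mul_le_mul_of_nonneg_right s1'.le p7.le
    have q2 := mul_le_mul_of_nonneg_left s3' (mul_pos hb1 p3).le
    have q3 := mul_le_mul_of_nonneg_left s2 ha2.le
    linarith
  · have hr2 : r 2 = 0 := le_antisymm (not_lt.1 h2) (h.r_nonneg 2)
    obtain ⟨t1, t4⟩ := key 0 r0 (by
      rw [show 0 + 2 = 2 from rfl, hr2, h.r_eq_zero z4]
      ring)
    have l2 := low_next hc0 hlow (j := 1) t1
    have l3 := low_prev hc0 hlow (j := 3) t4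
    have T : Tendsto (fun i => a 2 * X i (0 + 4) / c + 2 * b 1 ^ 2 / a 2 * X i (0 + 4) * X i (0 + 1)) l
        (𝓝 (a 2 * 0 / c + 2 * b 1 ^ 2 / a 2 * 0 * 0)) :=
      ((t4.const_mul _).div_const _).add ((t4.const_mul _).mul t1)
    simp only [mul_zero, zero_div, add_zero] at T
    obtain ⟨i, e1, e2, e4, s1, s2, s3, s4, s5⟩ := ((E 1).and ((E 2).and ((E 4).and
      ((t1.eventually (gt_mem_nhds (div_pos ha4 (mul_pos two_pos hb4)))).and
      ((t4.eventually (gt_mem_nhds (div_pos ha4 hb4))).and (l2.and (l3.and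
      (T.eventually (gt_mem_nhds (mul_pos hb1 hc0)))))))))).exists
    have p1 := h.back.pos i 1
    have p2 := h.back.pos i 2
    have p3 := h.back.pos i 3
    have p4 := h.back.pos i 4
    have p5 := h.back.pos i 5
    have p6 := h.back.pos i 6
    have p8 := h.back.pos i 8
    have e1' : X i 1 * (b 1 * X i 2 + b 4 * X i 5) = a 2 * X i 3 + a 4 * X i 5 := e1
    have e2' : X i 2 * (b 1 * X i 3 + b 4 * X i 6) = a 2 * X i 4 + a 4 * X i 6 := e2
    have e4' : X i 4 * (b 1 * X i 5 + b 4 * X i 8) = a 2 * X i 6 + a 4 * X i 8 := e4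
    have s1' : X i 1 < a 4 / (2 * b 4) := s1
    have s2' : X i 4 < a 4 / b 4 := s2
    have s3' : c ≤ X i 2 := s3
    have s4' : c ≤ X i 3 := s4
    have s5' : a 2 * X i 4 / c + 2 * b 1 ^ 2 / a 2 * X i 4 * X i 1 < b 1 * c := s5
    rw [lt_div_iff₀ (by positivity)] at s1' s2'
    have q1 := mul_le_mul_of_nonneg_right s1'.le p5.le
    have q2 := mul_le_mul_of_nonneg_right s2'.le p8.le
    have q3 := mul_pos ha2 p3
    have f5 : a 4 / 2 * X i 5 ≤ b 1 * X i 1 * X i 2 := by linarith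
    have f6 : a 2 * X i 6 ≤ b 1 * X i 4 * X i 5 := by linarith
    have f6' : a 4 * X i 6 ≤ 2 * b 1 ^ 2 / a 2 * X i 4 * X i 1 * X i 2 := by
      calc a 4 * X i 6 = a 4 / a 2 * (a 2 * X i 6) := by field_simp
        _ ≤ a 4 / a 2 * (b 1 * X i 4 * X i 5) := mul_le_mul_of_nonneg_left f6 (by positivity)
        _ = 2 * b 1 / a 2 * X i 4 * (a 4 / 2 * X i 5) := by ring
        _ ≤ 2 * b 1 / a 2 * X i 4 * (b 1 * X i 1 * X i 2) := mul_le_mul_of_nonneg_left f5 (by positivity)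
        _ = _ := by ring
    have f4 : a 2 * X i 4 ≤ a 2 * X i 4 / c * X i 2 := by
      calc a 2 * X i 4 = a 2 * X i 4 / c * c := by field_simp
        _ ≤ _ := mul_le_mul_of_nonneg_left s3' (by positivity)
    have g : (b 1 * X i 3) * X i 2 ≤ (a 2 * X i 4 / c + 2 * b 1 ^ 2 / a 2 * X i 4 * X i 1) * X i 2 := by
      have q4 : 0 < X i 2 * (b 4 * X i 6) := by positivity
      linarith
    have g2 := le_of_mul_le_mul_right g p2
    have g3 := mul_le_mul_of_nonneg_left s4' hb1.le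
    linarith

/-- the denominators of the large terms -/
theorem den_low (hc : FC a b) (ha3 : 0 < a 3) (hb3 : b 3 = 0) (h : Lims a b l X r v) (hl : Low l X) {j : ℕ}
    (h1 : Bd l X (j + 1)) (h4 : Bd l X (j + 4)) : 0 < b 1 * v (j + 1) + b 4 * v (j + 4) := by
  have hb0 := hc.b0
  have hb1 := hc.b1
  have hb2 := hc.b2
  have hb4 := hc.b4
  have ha2 := hc.a2
  have ha4 := hc.a4
  obtain ⟨c, hc0, hlow⟩ := hl
  have v1 := h.v_nonneg h1
  have v4 := h.v_nonneg h4
  by_contra hcon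
  have q1 := mul_nonneg hb1.le v1
  have q4 := mul_nonneg hb4.le v4
  have z1 : v (j + 1) = 0 := by
    have : b 1 * v (j + 1) = 0 := by linarith
    exact (mul_eq_zero.1 this).resolve_left hb1.ne'
  have z4 : v (j + 4) = 0 := by
    have : b 4 * v (j + 4) = 0 := by linarith
    exact (mul_eq_zero.1 this).resolve_left hb4.ne'
  have t1 := h.hv (j + 1) h1
  have t4 := h.hv (j + 4) h4
  rw [z1] at t1
  rw [z4] at t4
  have s1 : ∀ᶠ i in (l : Filter ℕ), X i (j + 1) < a 4 / (2 * b 4) := t1.eventually (gt_mem_nhds (by positivity))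
  have s4 : ∀ᶠ i in (l : Filter ℕ), X i (j + 4) < a 4 / (2 * b 4) := t4.eventually (gt_mem_nhds (by positivity))
  have s4' : ∀ᶠ i in (l : Filter ℕ), X i (j + 4) < 1 := t4.eventually (gt_mem_nhds one_pos)
  have s5 := low_next hc0 hlow t4
  obtain ⟨K1, hK1⟩ : ∃ K1 : ℝ, K1 = a 2 / c + a 3 + a 4 / a 2 * b 1 := ⟨_, rfl⟩
  obtain ⟨K2, hK2⟩ : ∃ K2 : ℝ, K2 = b 1 / c + b 4 * (b 1 / a 3) := ⟨_, rfl⟩
  have hK10 : 0 < K1 := by rw [hK1]; positivity
  have hK20 : 0 < K2 := by rw [hK2]; positivity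
  have key : ∀ᶠ i in (l : Filter ℕ), a 2 ≤ K2 * (2 * K1 / a 4) * X i (j + 1) * X i (j + 4) := by
    filter_upwards [h.back.step (j + 1), h.back.step (j + 2), h.back.step (j + 3), h.back.step (j + 4), s1, s4, s4', s5]
      with i g1 g2 g3 g4 hs1 hs4 hs4' hs5
    unfold lin at g1 g2 g3 g4
    rw [hb0, hb2, hb3, hc.a0, hc.a1] at g1 g2 g3 g4
    rw [show j + 1 + 1 = j + 2 from rfl, show j + 1 + 2 = j + 3 from rfl, show j + 1 + 3 = j + 4 from rfl,
      show j + 1 + 4 = j + 5 from rfl] at g1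
    rw [show j + 2 + 1 = j + 3 from rfl, show j + 2 + 2 = j + 4 from rfl, show j + 2 + 3 = j + 5 from rfl,
      show j + 2 + 4 = j + 6 from rfl] at g2
    rw [show j + 3 + 1 = j + 4 from rfl, show j + 3 + 2 = j + 5 from rfl, show j + 3 + 3 = j + 6 from rfl,
      show j + 3 + 4 = j + 7 from rfl] at g3
    rw [show j + 4 + 1 = j + 5 from rfl, show j + 4 + 2 = j + 6 from rfl, show j + 4 + 3 = j + 7 from rfl,
      show j + 4 + 4 = j + 8 from rfl] at g4
    rw [show j + 4 + 1 = j + 5 from rfl] at hs5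
    have p1 := h.back.pos i (j + 1)
    have p2 := h.back.pos i (j + 2)
    have p3 := h.back.pos i (j + 3)
    have p4 := h.back.pos i (j + 4)
    have p5 := h.back.pos i (j + 5)
    have p6 := h.back.pos i (j + 6)
    have p7 := h.back.pos i (j + 7)
    have p8 := h.back.pos i (j + 8)
    rw [lt_div_iff₀ (by positivity)] at hs1 hs4
    obtain ⟨M, hM⟩ : ∃ M : ℝ, M = b 1 * X i (j + 4) * X i (j + 5) := ⟨_, rfl⟩
    have k8 : X i (j + 4) * (2 * b 4) * X i (j + 8) ≤ a 4 * X i (j + 8) := mul_le_mul_of_nonneg_right hs4.le p8.le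
    have m6 := mul_pos ha2 p6
    have m7 := mul_pos ha3 p7
    have m8 := mul_pos ha4 p8
    have w6 : a 2 * X i (j + 6) ≤ M := by rw [hM]; linarith
    have w7 : a 3 * X i (j + 7) ≤ M := by rw [hM]; linarith
    have k5 : X i (j + 1) * (2 * b 4) * X i (j + 5) ≤ a 4 * X i (j + 5) := mul_le_mul_of_nonneg_right hs1.le p5.le
    have m3 := mul_pos ha2 p3
    have m4 := mul_pos ha3 p4
    have w5 : a 4 * X i (j + 5) ≤ 2 * b 1 * X i (j + 1) * X i (j + 2) := by linarith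
    -- `X_4 ≤ X_4 X_5 / c`
    have n4 : X i (j + 4) ≤ X i (j + 4) * X i (j + 5) / c := by
      rw [le_div_iff₀ hc0]
      exact mul_le_mul_of_nonneg_left hs5 p4.le
    have n4' : X i (j + 4) * X i (j + 5) ≤ X i (j + 5) := by
      have := mul_le_mul_of_nonneg_right hs4'.le p5.le
      linarith
    have nM : M ≤ b 1 * X i (j + 5) := by
      rw [hM]
      have := mul_le_mul_of_nonneg_left n4' hb1.le
      linarith
    have x2 : X i (j + 2) * (b 1 * X i (j + 3)) ≤ K1 * X i (j + 5) := by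
      have y1 : 0 ≤ X i (j + 2) * (b 4 * X i (j + 6)) := by positivity
      have y2 : a 2 * X i (j + 4) ≤ a 2 / c * X i (j + 5) := by
        calc a 2 * X i (j + 4) ≤ a 2 * (X i (j + 4) * X i (j + 5) / c) := mul_le_mul_of_nonneg_left n4 ha2.le
          _ = a 2 / c * (X i (j + 4) * X i (j + 5)) := by ring
          _ ≤ a 2 / c * X i (j + 5) := mul_le_mul_of_nonneg_left n4' (by positivity)
      have y3 : a 4 * X i (j + 6) ≤ a 4 / a 2 * b 1 * X i (j + 5) := by
        calc a 4 * X i (j + 6) = a 4 / a 2 * (a 2 * X i (j + 6)) := by field_simp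
          _ ≤ a 4 / a 2 * (b 1 * X i (j + 5)) := mul_le_mul_of_nonneg_left (w6.trans nM) (by positivity)
          _ = _ := by ring
      rw [hK1]
      linarith
    have x3 : X i (j + 3) ≤ 2 * K1 / a 4 * X i (j + 1) := by
      have y1 : (X i (j + 3) * a 4) * (b 1 * X i (j + 2)) ≤ (2 * K1 * X i (j + 1)) * (b 1 * X i (j + 2)) := by
        calc (X i (j + 3) * a 4) * (b 1 * X i (j + 2)) = a 4 * (X i (j + 2) * (b 1 * X i (j + 3))) := by ring
          _ ≤ a 4 * (K1 * X i (j + 5)) := mul_le_mul_of_nonneg_left x2 ha4.le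
          _ = K1 * (a 4 * X i (j + 5)) := by ring
          _ ≤ K1 * (2 * b 1 * X i (j + 1) * X i (j + 2)) := mul_le_mul_of_nonneg_left w5 hK10.le
          _ = _ := by ring
      have y2 := le_of_mul_le_mul_right y1 (by positivity)
      calc X i (j + 3) ≤ 2 * K1 * X i (j + 1) / a 4 := (le_div_iff₀ ha4).2 y2
        _ = _ := by ring
    have x4 : a 2 * X i (j + 5) ≤ (K2 * X i (j + 3) * X i (j + 4)) * X i (j + 5) := by
      have y1 : a 2 * X i (j + 5) ≤ X i (j + 3) * (b 1 * X i (j + 4) + b 4 * X i (j + 7)) := by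
        have m6' := mul_pos ha3 p6
        have m7' := mul_pos ha4 p7
        linarith
      have y2 : b 1 * X i (j + 4) ≤ b 1 / c * X i (j + 4) * X i (j + 5) := by
        have := mul_le_mul_of_nonneg_left n4 hb1.le
        calc b 1 * X i (j + 4) ≤ b 1 * (X i (j + 4) * X i (j + 5) / c) := this
          _ = _ := by ring
      have y3 : b 4 * X i (j + 7) ≤ b 4 * (b 1 / a 3) * X i (j + 4) * X i (j + 5) := by
        calc b 4 * X i (j + 7) = b 4 / a 3 * (a 3 * X i (j + 7)) := by field_simp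
          _ ≤ b 4 / a 3 * M := mul_le_mul_of_nonneg_left w7 (by positivity)
          _ = _ := by rw [hM]; ring
      calc a 2 * X i (j + 5) ≤ X i (j + 3) * (b 1 * X i (j + 4) + b 4 * X i (j + 7)) := y1
        _ ≤ X i (j + 3) * (b 1 / c * X i (j + 4) * X i (j + 5) +
              b 4 * (b 1 / a 3) * X i (j + 4) * X i (j + 5)) :=
            mul_le_mul_of_nonneg_left (add_le_add y2 y3) p3.le
        _ = _ := by rw [hK2]; ring
    have x5 := le_of_mul_le_mul_right x4 p5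
    calc a 2 ≤ K2 * X i (j + 3) * X i (j + 4) := x5
      _ ≤ K2 * (2 * K1 / a 4 * X i (j + 1)) * X i (j + 4) :=
          mul_le_mul_of_nonneg_right (mul_le_mul_of_nonneg_left x3 hK20.le) p4.le
      _ = _ := by ring
  have hlim : Tendsto (fun i => K2 * (2 * K1 / a 4) * X i (j + 1) * X i (j + 4)) l
      (𝓝 (K2 * (2 * K1 / a 4) * 0 * 0)) := (t1.const_mul _).mul t4
  have := ge_of_tendsto hlim key
  rw [mul_zero] at this
  linarith

/-- (28, 18) -/
theorem noBack_28_18 (hc : FC a b) (ha3 : 0 < a 3) (hb3 : b 3 = 0) (hX : Back a b l X) (hl : Low l X) : False := by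
  have hb0 := hc.b0
  have hb1 := hc.b1
  have hb2 := hc.b2
  have hb4 := hc.b4
  have ha0 := hc.a0
  have ha1 := hc.a1
  have ha2 := hc.a2
  have ha4 := hc.a4
  have na1 : 0 ≤ a 1 := ha1.ge
  have na4 : 0 ≤ a 4 := ha4.le
  have nb0 : 0 ≤ b 0 := hb0.ge
  obtain ⟨r, v, h⟩ := exists_lims hX hc.na hc.nb
  have hz1 : ∀ j, 0 < r j → Bd l X (j + 1) := fun j hj => h.bd_add (m := 1) (by norm_num) (by norm_num) hb1 hj
  have hz4 : ∀ j, 0 < r j → Bd l X (j + 4) := fun j hj => h.bd_add (m := 4) (by norm_num) (by norm_num) hb4 hj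
  have hy1 : ∀ j, 0 < r (j + 1) → Bd l X j := fun j hj => h.bd_of_add (m := 1) (by norm_num) (by norm_num) hb1 hj
  have hy4 : ∀ j, 0 < r (j + 4) → Bd l X j := fun j hj => h.bd_of_add (m := 4) (by norm_num) (by norm_num) hb4 hj
  have hr0 : ∀ j, ¬ 0 < r j → r j = 0 := fun j hj => le_antisymm (not_lt.1 hj) (h.r_nonneg j)
  have hE1 : ∀ j, 0 < r j → r j * (b 0 + b 1 * v (j + 1) + b 4 * v (j + 4)) = a 2 * r (j + 2) + a 3 * r (j + 3) := by
    intro j hj
    have := h.eq1 j (Or.inr (hz1 j hj)) (Or.inl hb2) (Or.inl hb3) (Or.inr (hz4 j hj))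
    rw [hb2, hb3, h.r_eq_zero (hz1 j hj), h.r_eq_zero (hz4 j hj)] at this
    linarith
  have hE2 : ∀ j, Bd l X j → v j * (b 1 * r (j + 1) + b 4 * r (j + 4)) =
      a 1 * r (j + 1) + a 2 * r (j + 2) + a 3 * r (j + 3) + a 4 * r (j + 4) := by
    intro j hj
    have := h.eq2 hj
    rw [hb2, hb3] at this
    linarith
  have hden : ∀ j, 0 < r j → 0 < b 0 + b 1 * v (j + 1) + b 4 * v (j + 4) := by
    intro j hj
    have z1 := hz1 j hj
    have z4 := hz4 j hj
    have := den_low hc ha3 hb3 h hl z1 z4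
    linarith
  -- the first pair
  have hstart : ∃ t, 0 < r t ∧ 0 < r (t + 2) := by
    have hr0' : 0 < r 0 := by rw [h.r_zero]; norm_num
    by_cases h1 : 0 < r 2
    · exact ⟨0, hr0', h1⟩
    · have h2 := hE1 0 hr0'
      rw [zero_add, zero_add, zero_add, zero_add, hr0 2 h1] at h2
      have h3 := hden 0 hr0'
      rw [zero_add, zero_add] at h3
      have h4 : 0 < a 3 * r 3 := by
        have := mul_pos hr0' h3
        linarith
      have h5 : 0 < r 3 := pos_of_mul_pos_right h4 ha3.le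
      refine ⟨3, h5, ?_⟩
      by_contra h6
      have h7 := hE2 1 (hz1 0 hr0')
      have e1 : (1 : ℕ) + 1 = 2 := rfl
      have e2 : (1 : ℕ) + 2 = 3 := rfl
      have e3 : (1 : ℕ) + 3 = 4 := rfl
      have e4 : (1 : ℕ) + 4 = 5 := rfl
      rw [e1, e2, e3, e4, hr0 2 h1, hr0 5 h6, h.r_eq_zero (hz1 3 h5)] at h7
      have := mul_pos ha2 h5
      linarith
  obtain ⟨t, ht, ht2⟩ := hstart
  have hstep : ∀ j, 0 < r j → 0 < r (j + 2) → 0 < r (j + 5) ∧ 0 < r (j + 5 + 2) := by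
    intro j h0 h2
    have z4 := hz4 j h0
    have z3 := hz1 (j + 2) h2
    have z6 := hz4 (j + 2) h2
    have e1 := hE1 (j + 2) h2
    rw [show j + 2 + 2 = j + 4 from rfl, h.r_eq_zero z4] at e1
    have h5 : 0 < a 3 * r (j + 2 + 3) := by
      have := mul_pos h2 (hden _ h2)
      linarith
    have h5' : 0 < r (j + 5) := pos_of_mul_pos_right h5 ha3.le
    refine ⟨h5', ?_⟩
    by_contra h7
    have h8 := hE2 (j + 2 + 1) z3
    rw [show j + 2 + 1 + 1 = j + 4 from rfl, show j + 2 + 1 + 2 = j + 5 from rfl,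
      show j + 2 + 1 + 3 = j + 2 + 4 from rfl, show j + 2 + 1 + 4 = j + 5 + 2 from rfl, h.r_eq_zero z4, h.r_eq_zero z6,
      hr0 _ h7] at h8
    have := mul_pos ha2 h5'
    linarith
  have hS : ∀ k, 0 < r (t + 5 * k) ∧ 0 < r (t + 5 * k + 2) := by
    intro k
    induction k with
    | zero => exact ⟨ht, ht2⟩
    | succ k ih => exact hstep _ ih.1 ih.2
  have ha23 : 0 < a 2 * a 3 := mul_pos ha2 ha3
  -- growth
  have hgrow : ∀ p0 : ℝ, 0 < p0 → ∀ k, p0 ≤ r (t + 5 * (k + 1)) →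
      (a 2 * a 3 + (b 0 ^ 2 + a 1 * a 2 * p0 + b 1 ^ 2 * a 4 ^ 2 * p0 / (b 4 * (b 1 + b 4))) / 3) * r (t + 5 * k) ≤
        a 2 * a 3 * r (t + 5 * (k + 1)) := by
    intro p0 hp0 k hk
    obtain ⟨j, hj⟩ : ∃ j, j = t + 5 * k := ⟨_, rfl⟩
    have e5 : t + 5 * (k + 1) = j + 5 := by rw [hj]; ring
    have e10 : t + 5 * (k + 1 + 1) = j + 10 := by rw [hj]; ring
    rw [e5] at hk ⊢
    rw [← hj]
    obtain ⟨g0, g2⟩ := hS k
    obtain ⟨g5, g7⟩ := hS (k + 1)
    obtain ⟨g10, -⟩ := hS (k + 1 + 1)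
    rw [e5] at g5 g7
    rw [e10] at g10
    rw [← hj] at g0 g2
    have g7' : 0 < r (j + 7) := g7
    have z1 := hz1 j g0
    have z4 := hz4 j g0
    have z3 : Bd l X (j + 3) := hz1 (j + 2) g2
    have z6 : Bd l X (j + 6) := hz4 (j + 2) g2
    have z8 : Bd l X (j + 8) := hz1 (j + 7) g7'
    have z9 : Bd l X (j + 9) := hz4 (j + 5) g5
    have R1 : r j * (b 0 + b 1 * v (j + 1) + b 4 * v (j + 4)) = a 2 * r (j + 2) := by
      have h2 := hE1 j g0
      rw [h.r_eq_zero z3] at h2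
      linarith
    have R2 : r (j + 2) * (b 0 + b 1 * v (j + 3) + b 4 * v (j + 6)) = a 3 * r (j + 5) := by
      have h2 := hE1 (j + 2) g2
      rw [show j + 2 + 1 = j + 3 from rfl, show j + 2 + 2 = j + 4 from rfl, show j + 2 + 3 = j + 5 from rfl,
        show j + 2 + 4 = j + 6 from rfl, h.r_eq_zero z4] at h2
      linarith
    have V1 : v (j + 1) * (b 1 * r (j + 2) + b 4 * r (j + 5)) = a 1 * r (j + 2) + a 4 * r (j + 5) := by
      have h2 := hE2 (j + 1) z1
      rw [show j + 1 + 1 = j + 2 from rfl, show j + 1 + 2 = j + 3 from rfl, show j + 1 + 3 = j + 4 from rfl,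
        show j + 1 + 4 = j + 5 from rfl, h.r_eq_zero z3, h.r_eq_zero z4] at h2
      linarith
    have V3 : v (j + 3) * (b 4 * r (j + 7)) = a 2 * r (j + 5) + a 4 * r (j + 7) := by
      have h2 := hE2 (j + 3) z3
      rw [show j + 3 + 1 = j + 4 from rfl, show j + 3 + 2 = j + 5 from rfl, show j + 3 + 3 = j + 6 from rfl,
        show j + 3 + 4 = j + 7 from rfl, h.r_eq_zero z4, h.r_eq_zero z6] at h2
      linarith
    have V4 : v (j + 4) * (b 1 * r (j + 5)) = a 1 * r (j + 5) + a 3 * r (j + 7) := by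
      have h2 := hE2 (j + 4) z4
      rw [show j + 4 + 1 = j + 5 from rfl, show j + 4 + 2 = j + 6 from rfl, show j + 4 + 3 = j + 7 from rfl,
        show j + 4 + 4 = j + 8 from rfl, h.r_eq_zero z6, h.r_eq_zero z8] at h2
      linarith
    have V6 : v (j + 6) * (b 1 * r (j + 7) + b 4 * r (j + 10)) = a 1 * r (j + 7) + a 4 * r (j + 10) := by
      have h2 := hE2 (j + 6) z6
      rw [show j + 6 + 1 = j + 7 from rfl, show j + 6 + 2 = j + 8 from rfl, show j + 6 + 3 = j + 9 from rfl,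
        show j + 6 + 4 = j + 10 from rfl, h.r_eq_zero z8, h.r_eq_zero z9] at h2
      linarith
    have hprod := prod_B ha2 ha3 na1 na4 nb0 hb1 hb4 hp0 hk (h.r_le_one _) g7' (h.r_le_one _) g10 g2 (h.r_le_one _)
      V1 V3 V4 V6
    have h7 : r j * ((b 0 + b 1 * v (j + 1) + b 4 * v (j + 4)) * (b 0 + b 1 * v (j + 3) + b 4 * v (j + 6))) =
        a 2 * a 3 * r (j + 5) := by
      calc _ = (r j * (b 0 + b 1 * v (j + 1) + b 4 * v (j + 4))) * (b 0 + b 1 * v (j + 3) + b 4 * v (j + 6)) := by ring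
        _ = a 2 * (r (j + 2) * (b 0 + b 1 * v (j + 3) + b 4 * v (j + 6))) := by rw [R1]; ring
        _ = _ := by rw [R2]; ring
    have h8 := mul_le_mul_of_nonneg_left hprod g0.le
    linarith
  -- monotone
  have hmono1 : ∀ k, r (t + 5 * k) ≤ r (t + 5 * (k + 1)) := by
    intro k
    have h1 := hgrow (r (t + 5 * (k + 1))) (hS (k + 1)).1 k le_rfl
    obtain ⟨e, he⟩ : ∃ e : ℝ, e = (b 0 ^ 2 + a 1 * a 2 * r (t + 5 * (k + 1)) +
      b 1 ^ 2 * a 4 ^ 2 * r (t + 5 * (k + 1)) / (b 4 * (b 1 + b 4))) / 3 := ⟨_, rfl⟩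
    rw [← he] at h1
    have he0 : 0 ≤ e := by
      have := (hS (k + 1)).1
      rw [he]
      positivity
    have h2 : 0 ≤ e * r (t + 5 * k) := mul_nonneg he0 (hS k).1.le
    have h3 : a 2 * a 3 * r (t + 5 * k) ≤ a 2 * a 3 * r (t + 5 * (k + 1)) := by linarith
    exact le_of_mul_le_mul_left h3 ha23
  have hmono : ∀ k, r t ≤ r (t + 5 * k) := by
    intro k
    induction k with
    | zero => exact le_rfl
    | succ k ih => exact ih.trans (hmono1 k)
  obtain ⟨c, hc'⟩ : ∃ c : ℝ, c = (b 0 ^ 2 + a 1 * a 2 * r t + b 1 ^ 2 * a 4 ^ 2 * r t / (b 4 * (b 1 + b 4))) / 3 :=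
    ⟨_, rfl⟩
  have hc0 : 0 < c := by
    have q0 : 0 ≤ b 0 ^ 2 := sq_nonneg _
    have q1 : 0 ≤ a 1 * a 2 * r t := by positivity
    have q2 : 0 < b 1 ^ 2 * a 4 ^ 2 * r t / (b 4 * (b 1 + b 4)) := by positivity
    rw [hc']
    linarith
  refine no_geom (ρ := fun k => r (t + 5 * k)) (q := (a 2 * a 3 + c) / (a 2 * a 3)) ?_ (hS 0).1 (fun k => h.r_le_one _)
    (fun k => ?_)
  · rw [one_lt_div ha23]
    linarith
  · show (a 2 * a 3 + c) / (a 2 * a 3) * r (t + 5 * k) ≤ r (t + 5 * (k + 1))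
    have h1 := hgrow (r t) ht k (hmono (k + 1))
    rw [← hc'] at h1
    rw [div_mul_eq_mul_div, div_le_iff₀ ha23]
    linarith


/-! ### the four cases -/

private theorem fc_of {N D : ℕ} {a b : ℕ → ℝ} (ha : Pat N a) (hb : Pat D b) (h : (!N.testBit 0 && !N.testBit 1 && N.testBit 2 &&
    N.testBit 4 && !D.testBit 0 && D.testBit 1 && !D.testBit 2 && D.testBit 4) = true) : FC a b := by
  simp only [Bool.and_eq_true, Bool.not_eq_true'] at h
  obtain ⟨⟨⟨⟨⟨⟨⟨h1, h2⟩, h3⟩, h4⟩, h5⟩, h6⟩, h7⟩, h8⟩ := h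
  exact ⟨ha.zero (by norm_num) h1, ha.zero (by norm_num) h2, ha.pos (by norm_num) h3, ha.nonneg (by norm_num),
    ha.pos (by norm_num) h4, hb.zero (by norm_num) h5, hb.pos (by norm_num) h6, hb.zero (by norm_num) h7,
    hb.nonneg (by norm_num), hb.pos (by norm_num) h8⟩

theorem esb_20_18 : ESB (caseOf 4 20 18) :=
  esb_of_low (fun a b ha hb => fc_of ha hb (by decide)) fun a b ha hb l X hX hl =>
    noBack_20_18 (fc_of ha hb (by decide)) (ha.zero (by norm_num) (by decide)) (hb.zero (by norm_num) (by decide)) hX hl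

theorem esb_20_26 : ESB (caseOf 4 20 26) :=
  esb_of_low (fun a b ha hb => fc_of ha hb (by decide)) fun a b ha hb l X hX hl =>
    noBack_26 (fc_of ha hb (by decide)) (hb.pos (by norm_num) (by decide)) hX hl

theorem esb_28_18 : ESB (caseOf 4 28 18) :=
  esb_of_low (fun a b ha hb => fc_of ha hb (by decide)) fun a b ha hb l X hX hl =>
    noBack_28_18 (fc_of ha hb (by decide)) (ha.pos (by norm_num) (by decide)) (hb.zero (by norm_num) (by decide)) hX hl

theorem esb_28_26 : ESB (caseOf 4 28 26) :=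
  esb_of_low (fun a b ha hb => fc_of ha hb (by decide)) fun a b ha hb l X hX hl =>
    noBack_26 (fc_of ha hb (by decide)) (hb.pos (by norm_num) (by decide)) hX hl

end Pool.Agent.H23.K4
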