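import Pool.Agent.H50.Rdb.Fam3

/-!
# Backward orbits of one fixed solution

For the equations with `a₂, a₄, b₁, b₄ > 0` (and `a₀ = a₁ = b₀ = b₂ = 0`) two consecutive terms of a fixed positive solution are
never both small for large `n`: otherwise the terms would decrease geometrically back to the initial values. So the backward orbits
of a fixed solution satisfy `Low`.
-/

namespace Pool.Agent.H23.K4

open Filter Topology
open Pool.Agent.H50.Rdb
open Pool.Agent.H81.RDE (ESB caseOf IsSolution)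

/-- two consecutive terms of the backward orbit are not both small -/
def Low (l : Ultrafilter ℕ) (X : ℕ → ℕ → ℝ) : Prop :=
  ∃ c : ℝ, 0 < c ∧ ∀ j, ∀ᶠ i in (l : Filter ℕ), c ≤ X i j ∨ c ≤ X i (j + 1)

/-- two consecutive terms of the solution are not both small, for `n` large -/
def LowS (x : ℕ → ℝ) : Prop := ∃ (c : ℝ) (n0 : ℕ), 0 < c ∧ ∀ n ≥ n0, c ≤ x n ∨ c ≤ x (n + 1)

theorem bounded_of_low {a b x : ℕ → ℝ} (hx : PosSol a b x) (hl : LowS x)
    (h : ∀ (l : Ultrafilter ℕ) (X : ℕ → ℕ → ℝ), Back a b l X → Low l X → False) : ∃ M, ∀ n, x n ≤ M := by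
  by_contra hU
  push Not at hU
  have key : ∀ i : ℕ, ∃ N : ℕ, i ≤ N ∧ (i : ℝ) < x N ∧ ∀ t ≤ N, x t ≤ x N := by
    intro i
    obtain ⟨n, hn⟩ := hU ((i : ℝ) + ∑ t ∈ Finset.range i, x t)
    obtain ⟨N, hN, hmax⟩ := Finset.exists_max_image (Finset.range (n + 1)) x ⟨0, by simp⟩
    rw [Finset.mem_range] at hN
    have hnN : x n ≤ x N := hmax n (by simp)
    have hs : 0 ≤ ∑ t ∈ Finset.range i, x t := Finset.sum_nonneg fun t _ => (hx.1 t).le
    refine ⟨N, ?_, by linarith, fun t ht' => hmax t (by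
      rw [Finset.mem_range]; omega)⟩
    by_contra hlt
    push Not at hlt
    have h1 : x N ≤ ∑ t ∈ Finset.range i, x t :=
      Finset.single_le_sum (f := x) (fun t _ => (hx.1 t).le) (Finset.mem_range.2 hlt)
    have h2 : (0 : ℝ) ≤ i := Nat.cast_nonneg _
    linarith
  choose N hN hi hmax using key
  have hl' : ((hyperfilter ℕ : Ultrafilter ℕ) : Filter ℕ) ≤ atTop := Nat.hyperfilter_le_atTop
  refine h (hyperfilter ℕ) (fun i j => x (N i - j)) ⟨?_, ?_, ?_, ?_⟩ ?_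
  · intro j
    filter_upwards [(eventually_ge_atTop (j + 4)).filter_mono hl'] with i hij
    have hNi := hN i
    have e0 : N i - j = (N i - j - 4) + 4 := by omega
    have e1 : N i - (j + 1) = (N i - j - 4) + 3 := by omega
    have e2 : N i - (j + 2) = (N i - j - 4) + 2 := by omega
    have e3 : N i - (j + 3) = (N i - j - 4) + 1 := by omega
    have e4 : N i - (j + 4) = (N i - j - 4) := by omega
    have := hx.2 (N i - j - 4)
    rw [e0, e1, e2, e3, e4]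
    exact this
  · exact fun i j => hx.1 _
  · exact fun i j => hmax i _ (Nat.sub_le _ _)
  · refine tendsto_atTop_mono (fun i => (hi i).le) ?_
    exact (tendsto_natCast_atTop_atTop).mono_left hl'
  · obtain ⟨c, n0, hc, hlow⟩ := hl
    refine ⟨c, hc, fun j => ?_⟩
    filter_upwards [(eventually_ge_atTop (j + 1 + n0)).filter_mono hl'] with i hij
    have hNi := hN i
    have e : N i - j = N i - (j + 1) + 1 := by omega
    rw [e]
    exact (hlow (N i - (j + 1)) (by omega)).symm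

/-- the coefficients: `a₂, a₄, b₁, b₄ > 0`, `a₀ = a₁ = b₀ = b₂ = 0`, `a₃, b₃ ≥ 0` -/
structure FC (a b : ℕ → ℝ) : Prop where
  a0 : a 0 = 0
  a1 : a 1 = 0
  a2 : 0 < a 2
  a3 : 0 ≤ a 3
  a4 : 0 < a 4
  b0 : b 0 = 0
  b1 : 0 < b 1
  b2 : b 2 = 0
  b3 : 0 ≤ b 3
  b4 : 0 < b 4

theorem low_step {a b x : ℕ → ℝ} (hc : FC a b) (hx : PosSol a b x) {e : ℝ}
    (h1 : e * b 4 ≤ a 4 / 2) (h2 : e * b 1 ≤ a 2 / 4) (h3 : e * b 3 ≤ a 2 / 4) (h4 : e * b 3 ≤ a 4 / 2) {k : ℕ}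
    (k4 : x (k + 4) < e) (k5 : x (k + 5) < e) : x (k + 3) ≤ x (k + 4) / 2 := by
  have e0 := hx.2 k
  have e1 := hx.2 (k + 1)
  unfold lin at e0 e1
  rw [hc.a0, hc.a1, hc.b0, hc.b2] at e0 e1
  rw [show k + 1 + 4 = k + 5 from rfl, show k + 1 + 3 = k + 4 from rfl, show k + 1 + 2 = k + 3 from rfl,
    show k + 1 + 1 = k + 2 from rfl] at e1
  have p0 := hx.1 k
  have p1 := hx.1 (k + 1)
  have p2 := hx.1 (k + 2)
  have p3 := hx.1 (k + 3)
  have p4 := hx.1 (k + 4)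
  have p5 := hx.1 (k + 5)
  have m1 : ∀ {s t z : ℝ}, 0 ≤ s → 0 ≤ z → t < e → t * (s * z) ≤ (e * s) * z := by
    intro s t z hs hz ht
    have := mul_le_mul_of_nonneg_right ht.le (mul_nonneg hs hz)
    linarith
  have q1 := m1 hc.b1.le p4.le k5
  have q2 := m1 hc.b3 p2.le k5
  have q3 := m1 hc.b4.le p1.le k5
  have q4 := m1 hc.b1.le p3.le k4
  have q5 := m1 hc.b3 p1.le k4
  have q6 := m1 hc.b4.le p0.le k4
  have r1 := mul_le_mul_of_nonneg_right h2 p4.le
  have r2 := mul_le_mul_of_nonneg_right h3 p2.le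
  have r3 := mul_le_mul_of_nonneg_right h1 p1.le
  have r4 := mul_le_mul_of_nonneg_right h2 p3.le
  have r5 := mul_le_mul_of_nonneg_right h4 p1.le
  have r6 := mul_le_mul_of_nonneg_right h1 p0.le
  have s1 := mul_nonneg hc.a3 p2.le
  have s2 := mul_nonneg hc.a3 p1.le
  have s3 := mul_pos hc.a4 p0
  have f1 : a 2 * x (k + 3) + a 4 / 2 * x (k + 1) ≤ a 2 / 4 * x (k + 4) + a 2 / 4 * x (k + 2) := by linarith
  have f2 : a 2 * x (k + 2) ≤ a 2 / 4 * x (k + 3) + a 4 / 2 * x (k + 1) := by linarith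
  have f3 : a 2 * x (k + 3) ≤ a 2 * (x (k + 4) / 2) := by
    have g1 := mul_pos hc.a2 p3
    have g2 := mul_pos hc.a4 p1
    have g3 := mul_pos hc.a2 p4
    linarith
  exact le_of_mul_le_mul_left f3 hc.a2

theorem low_of_posSol {a b x : ℕ → ℝ} (hc : FC a b) (hx : PosSol a b x) : LowS x := by
  obtain ⟨s, hs⟩ : ∃ s : ℝ, s = b 1 + b 3 + b 4 := ⟨_, rfl⟩
  have hs0 : 0 < s := by
    have := hc.b1
    have := hc.b3
    have := hc.b4
    rw [hs]
    linarith
  obtain ⟨e, he⟩ : ∃ e : ℝ, e = min (a 2) (a 4) / (4 * s) := ⟨_, rfl⟩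
  have hm : 0 < min (a 2) (a 4) := lt_min hc.a2 hc.a4
  have he0 : 0 < e := by rw [he]; positivity
  have hes : e * s = min (a 2) (a 4) / 4 := by
    rw [he]
    field_simp
  have hes2 : e * s ≤ a 2 / 4 := by
    rw [hes]
    have := min_le_left (a 2) (a 4)
    linarith
  have hes4 : e * s ≤ a 4 / 4 := by
    rw [hes]
    have := min_le_right (a 2) (a 4)
    linarith
  have g1 := mul_pos he0 hc.b1
  have g3 := mul_nonneg he0.le hc.b3
  have g4 := mul_pos he0 hc.b4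
  have ga := hc.a4
  have hexp : e * s = e * b 1 + e * b 3 + e * b 4 := by rw [hs]; ring
  have h1 : e * b 4 ≤ a 4 / 2 := by linarith
  have h2 : e * b 1 ≤ a 2 / 4 := by linarith
  have h3 : e * b 3 ≤ a 2 / 4 := by linarith
  have h4 : e * b 3 ≤ a 4 / 2 := by linarith
  obtain ⟨m, hm⟩ : ∃ m : ℕ, (1 / 2 : ℝ) ^ m * e < x 3 := by
    obtain ⟨m, hm⟩ := exists_pow_lt_of_lt_one (div_pos (hx.1 3) he0) (by norm_num : (1 / 2 : ℝ) < 1)
    exact ⟨m, by rwa [lt_div_iff₀ he0] at hm⟩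
  refine ⟨e, m + 3, he0, fun n hn => ?_⟩
  by_contra hcon
  push Not at hcon
  obtain ⟨c1, c2⟩ := hcon
  obtain ⟨N, hN⟩ : ∃ N, n = N + 3 := ⟨n - 3, by omega⟩
  rw [hN] at c1 c2 hn
  -- downward induction
  have key : ∀ t ≤ N, x (N + 3 - t) < e ∧ x (N + 3 - t + 1) < e ∧ x (N + 3 - t) ≤ (1 / 2 : ℝ) ^ t * e := by
    intro t
    induction t with
    | zero => intro _; exact ⟨c1, c2, by simpa using c1.le⟩
    | succ t ih =>
      intro ht
      obtain ⟨i1, i2, i3⟩ := ih (by omega)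
      obtain ⟨k, hk⟩ : ∃ k, N + 3 - t = k + 4 := ⟨N + 3 - t - 4, by omega⟩
      have hk2 : N + 3 - (t + 1) = k + 3 := by omega
      rw [hk] at i1 i2 i3
      rw [hk2]
      have h5 := low_step hc hx h1 h2 h3 h4 (k := k) i1 i2
      have p4 := hx.1 (k + 4)
      refine ⟨by linarith, i1, ?_⟩
      rw [pow_succ]
      linarith
  have h5 := (key N le_rfl).2.2
  have h6 : N + 3 - N = 3 := by omega
  rw [h6] at h5
  have h7 : (1 / 2 : ℝ) ^ N * e ≤ (1 / 2 : ℝ) ^ m * e :=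
    mul_le_mul_of_nonneg_right (pow_le_pow_of_le_one (by norm_num) (by norm_num) (by omega)) he0.le
  linarith

/-! ### shifts -/

theorem bounded_of_shift {x : ℕ → ℝ} {n0 : ℕ} (h : ∃ M, ∀ n, x (n + n0) ≤ M) (h0 : ∀ n, 0 ≤ x n) : ∃ M, ∀ n, x n ≤ M := by
  obtain ⟨M, hM⟩ := h
  refine ⟨max M (∑ t ∈ Finset.range n0, x t), fun n => ?_⟩
  by_cases hn : n < n0
  · exact (Finset.single_le_sum (f := x) (fun i _ => h0 i) (Finset.mem_range.2 hn)).trans (le_max_right _ _)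
  · obtain ⟨k, rfl⟩ : ∃ k, n = k + n0 := ⟨n - n0, by omega⟩
    exact (hM k).trans (le_max_left _ _)

theorem posSol_shift {a b x : ℕ → ℝ} (hx : NonnegSol a b x) {n0 : ℕ} (h : ∀ n ≥ n0, 0 < x n) :
    PosSol a b (fun n => x (n + n0)) := by
  refine ⟨fun n => h _ (by omega), fun n => ?_⟩
  have h1 := hx.2 (n + n0)
  have e : ∀ k, n + k + n0 = n + n0 + k := fun k => by omega
  simp only [e]
  rw [h1.2]
  exact div_mul_cancel₀ _ h1.1.ne'

/-! ### solutions with zeros -/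

/-- `x (n+4) = 0` iff the numerator vanishes -/
theorem zero_iff {a b x : ℕ → ℝ} (hc : FC a b) (hx : NonnegSol a b x) (n : ℕ) (h : x (n + 4) = 0) :
    x (n + 2) = 0 ∧ x n = 0 ∧ (0 < a 3 → x (n + 1) = 0) := by
  obtain ⟨h1, h2⟩ := hx.2 n
  rw [h] at h2
  have h3 : lin a (x (n + 3)) (x (n + 2)) (x (n + 1)) (x n) = 0 := by
    rcases div_eq_zero_iff.1 h2.symm with h3 | h3
    · exact h3
    · exact absurd h3 h1.ne'
  unfold lin at h3
  rw [hc.a0, hc.a1] at h3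
  have q2 := mul_nonneg hc.a2.le (hx.1 (n + 2))
  have q3 := mul_nonneg hc.a3 (hx.1 (n + 1))
  have q4 := mul_nonneg hc.a4.le (hx.1 n)
  refine ⟨?_, ?_, fun ha => ?_⟩
  · have : a 2 * x (n + 2) = 0 := by linarith
    exact (mul_eq_zero.1 this).resolve_left hc.a2.ne'
  · have : a 4 * x n = 0 := by linarith
    exact (mul_eq_zero.1 this).resolve_left hc.a4.ne'
  · have : a 3 * x (n + 1) = 0 := by linarith
    exact (mul_eq_zero.1 this).resolve_left ha.ne'

/-- all terms after a zero at an even distance vanish, if two of them are given -/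
theorem zero_fwd {a b x : ℕ → ℝ} (ha0 : a 0 = 0) (ha1 : a 1 = 0) (ha3 : a 3 = 0) (hx : NonnegSol a b x) {n : ℕ}
    (h0 : x n = 0) (h2 : x (n + 2) = 0) : ∀ k, x (n + 2 * k) = 0 ∧ x (n + 2 * k + 2) = 0 := by
  intro k
  induction k with
  | zero => exact ⟨h0, h2⟩
  | succ k ih =>
    refine ⟨ih.2, ?_⟩
    have h1 := (hx.2 (n + 2 * k)).2
    have e : n + 2 * (k + 1) + 2 = n + 2 * k + 4 := by ring
    rw [e, h1]
    unfold lin
    rw [ha0, ha1, ha3, ih.1, ih.2]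
    simp

/-- if one parity class vanishes then the solution is bounded -/
theorem bounded_parity {a b x : ℕ → ℝ} (hc : FC a b) (ha3 : a 3 = 0) (hx : NonnegSol a b x) {n : ℕ}
    (hz : ∀ k, x (n + 2 * k) = 0) : ∃ M, ∀ m, x m ≤ M := by
  -- `y k = x (n + 1 + 2 k)`
  have hy : ∀ k, 0 < b 4 * x (n + 1 + 2 * k) ∧ x (n + 1 + 2 * (k + 2)) * (b 4 * x (n + 1 + 2 * k)) =
      a 2 * x (n + 1 + 2 * (k + 1)) + a 4 * x (n + 1 + 2 * k) := by
    intro k
    obtain ⟨h1, h2⟩ := hx.2 (n + 1 + 2 * k)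
    have e3 : n + 1 + 2 * k + 3 = n + 2 * (k + 2) := by ring
    have e2 : n + 1 + 2 * k + 2 = n + 1 + 2 * (k + 1) := by ring
    have e1 : n + 1 + 2 * k + 1 = n + 2 * (k + 1) := by ring
    have e4 : n + 1 + 2 * k + 4 = n + 1 + 2 * (k + 2) := by ring
    rw [e3, e2, e1, hz, hz] at h1 h2
    rw [e4] at h2
    unfold lin at h1 h2
    rw [hc.b0, hc.b2] at h1 h2
    rw [hc.a0, hc.a1, ha3] at h2
    have h3 : 0 < b 4 * x (n + 1 + 2 * k) := by linarith
    refine ⟨h3, ?_⟩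
    have h4 : (0 : ℝ) + b 1 * 0 + 0 * x (n + 1 + 2 * (k + 1)) + b 3 * 0 + b 4 * x (n + 1 + 2 * k) =
        b 4 * x (n + 1 + 2 * k) := by ring
    rw [h2, h4, div_mul_cancel₀ _ h3.ne']
    ring
  have hp : ∀ k, 0 < x (n + 1 + 2 * k) := fun k => pos_of_mul_pos_right (hy k).1 hc.b4.le
  have hb4 := hc.b4
  have ha4 := hc.a4
  have ha2 := hc.a2
  -- lower bound
  have hlow : ∀ k, a 4 / b 4 ≤ x (n + 1 + 2 * (k + 2)) := by
    intro k
    obtain ⟨h1, h2⟩ := hy k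
    rw [div_le_iff₀ hb4]
    have h3 : a 4 * x (n + 1 + 2 * k) ≤ (x (n + 1 + 2 * (k + 2)) * b 4) * x (n + 1 + 2 * k) := by
      have := mul_pos ha2 (hp (k + 1))
      linarith
    exact le_of_mul_le_mul_right h3 (hp k)
  -- the ratio
  have hrat : ∀ k, x (n + 1 + 2 * (k + 4)) ≤ (a 2 / a 4 + 1) * x (n + 1 + 2 * (k + 3)) := by
    intro k
    have h2 := (hy (k + 2)).2
    have e4 : k + 2 + 2 = k + 4 := rfl
    have e3 : k + 2 + 1 = k + 3 := rfl
    rw [e4, e3] at h2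
    have l2 := hlow k
    have l3 := hlow (k + 1)
    have e3' : k + 1 + 2 = k + 3 := rfl
    rw [e3'] at l3
    have p2 := hp (k + 2)
    have p3 := hp (k + 3)
    rw [div_le_iff₀ hb4] at l2 l3
    obtain ⟨u, hu⟩ : ∃ u, u = x (n + 1 + 2 * (k + 2)) := ⟨_, rfl⟩
    obtain ⟨w, hw⟩ : ∃ w, w = x (n + 1 + 2 * (k + 3)) := ⟨_, rfl⟩
    obtain ⟨z, hz⟩ : ∃ z, z = x (n + 1 + 2 * (k + 4)) := ⟨_, rfl⟩
    rw [← hu, ← hw, ← hz] at h2
    rw [← hu] at l2 p2
    rw [← hw] at l3 p3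
    rw [← hw, ← hz]
    have h5 : z * (b 4 * u) ≤ (a 2 / a 4 + 1) * w * (b 4 * u) := by
      have h6 : a 2 * w ≤ a 2 / a 4 * w * (b 4 * u) := by
        calc a 2 * w = a 2 / a 4 * w * a 4 := by field_simp
          _ ≤ a 2 / a 4 * w * (b 4 * u) := by
            refine mul_le_mul_of_nonneg_left ?_ (by positivity)
            linarith
      have h7 : a 4 * u ≤ w * (b 4 * u) := by
        calc a 4 * u ≤ w * b 4 * u := mul_le_mul_of_nonneg_right l3 p2.le
          _ = _ := by ring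
      calc z * (b 4 * u) = a 2 * w + a 4 * u := h2
        _ ≤ a 2 / a 4 * w * (b 4 * u) + w * (b 4 * u) := add_le_add h6 h7
        _ = _ := by ring
    exact le_of_mul_le_mul_right h5 (mul_pos hb4 p2)
  have hbd : ∀ k, x (n + 1 + 2 * (k + 5)) ≤ (a 2 * (a 2 / a 4 + 1) + a 4) / b 4 := by
    intro k
    have h2 := (hy (k + 3)).2
    have e4 : k + 3 + 2 = k + 5 := rfl
    have e3 : k + 3 + 1 = k + 4 := rfl
    rw [e4, e3] at h2
    have h3 := hrat k
    have p3 := hp (k + 3)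
    rw [le_div_iff₀ hb4]
    have h5 : x (n + 1 + 2 * (k + 5)) * b 4 * x (n + 1 + 2 * (k + 3)) ≤
        (a 2 * (a 2 / a 4 + 1) + a 4) * x (n + 1 + 2 * (k + 3)) := by
      have := mul_le_mul_of_nonneg_left h3 ha2.le
      linarith
    exact le_of_mul_le_mul_right h5 p3
  refine bounded_of_shift (n0 := n + 11) ⟨(a 2 * (a 2 / a 4 + 1) + a 4) / b 4, fun m => ?_⟩ hx.1
  rcases Nat.even_or_odd' m with ⟨k, hk | hk⟩
  · have e : m + (n + 11) = n + 1 + 2 * (k + 5) := by omega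
    rw [e]
    exact hbd k
  · have e : m + (n + 11) = n + 2 * (k + 6) := by omega
    rw [e, hz]
    positivity

/-- either the solution is eventually positive or it is bounded -/
theorem pos_or_bounded {a b x : ℕ → ℝ} (hc : FC a b) (hx : NonnegSol a b x) :
    (∃ n0, ∀ n ≥ n0, 0 < x n) ∨ ∃ M, ∀ n, x n ≤ M := by
  by_contra hcon
  push Not at hcon
  obtain ⟨h1, h2⟩ := hcon
  rcases hc.a3.lt_or_eq with h3 | h3
  · -- `a₃ > 0`: a zero at `n ≥ 6` is impossible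
    obtain ⟨n, hn, hz⟩ := h1 6
    obtain ⟨m, rfl⟩ : ∃ m, n = m + 6 := ⟨n - 6, by omega⟩
    have hz0 : x (m + 2 + 4) = 0 := le_antisymm hz (hx.1 _)
    obtain ⟨z4, z2, z3⟩ := zero_iff hc hx (m + 2) hz0
    have z3 := z3 h3
    have e4 : m + 2 + 2 = m + 4 := rfl
    rw [e4] at z4
    obtain ⟨-, z0, z1⟩ := zero_iff hc hx m z4
    have z1 := z1 h3
    -- then `x (m + 5) = 0`, and the denominator of `x (m + 6)` vanishes
    have h5 := (hx.2 (m + 1)).2
    have e3 : m + 2 + 1 = m + 3 := rfl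
    have f3 : m + 1 + 3 = m + 4 := rfl
    have f2 : m + 1 + 2 = m + 3 := rfl
    have f1 : m + 1 + 1 = m + 2 := rfl
    rw [f3, f2, f1, z4, z2, z1] at h5
    rw [e3] at z3
    rw [z3] at h5
    have h6 := (hx.2 (m + 2)).1
    have g3 : m + 2 + 3 = m + 1 + 4 := rfl
    have g2 : m + 2 + 2 = m + 4 := rfl
    have g1 : m + 2 + 1 = m + 3 := rfl
    rw [g3, g2, g1, h5, z4, z3, z2] at h6
    unfold lin at h6
    rw [hc.a0, hc.b0] at h6
    simp at h6
  · obtain ⟨n, hn, hz⟩ := h1 4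
    obtain ⟨m, rfl⟩ : ∃ m, n = m + 4 := ⟨n - 4, by omega⟩
    have hz0 : x (m + 4) = 0 := le_antisymm hz (hx.1 _)
    obtain ⟨z2, z0, -⟩ := zero_iff hc hx m hz0
    have hz := zero_fwd hc.a0 hc.a1 h3.symm hx z0 z2
    obtain ⟨M, hM⟩ := bounded_parity hc h3.symm hx (n := m) fun k => (hz k).1
    obtain ⟨t, ht⟩ := h2 M
    exact absurd (hM t) (not_le.2 ht)

/-- **Transfer.** -/
theorem esb_of_low {N D : ℕ} (hF : ∀ a b, Pat N a → Pat D b → FC a b)
    (h : ∀ a b, Pat N a → Pat D b → ∀ (l : Ultrafilter ℕ) (X : ℕ → ℕ → ℝ), Back a b l X → Low l X → False) :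
    ESB (caseOf 4 N D) := by
  intro P hP x hx
  have hc := hF _ _ (pat_numC hP) (pat_denC hP)
  have hn := nonnegSol_of_isSolution hP hx
  rcases pos_or_bounded hc hn with ⟨n0, h0⟩ | h1
  · have hs := posSol_shift hn h0
    exact bounded_of_shift (bounded_of_low hs (low_of_posSol hc hs) (h _ _ (pat_numC hP) (pat_denC hP))) hn.1
  · exact h1

end Pool.Agent.H23.K4
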